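import Pool.Agent.X219.CB.Core

/-! Closed choice on Baire space is not Weihrauch reducible to the Cantor-Bendixson problem. -/

set_option autoImplicit false

open Set Topology MeasureTheory
open Pool.Agent.X219.CB

namespace Pool.Agent.Results.MP_88baa4_lc.ChoiceNotCB

/-- The tree of the closed set whose negative name is the value of the word function at `a`. -/
def tree (φ : List ℕ → List ℕ) (a : Baire) (τ : List ℕ) : Prop :=
  ∀ s : List ℕ, Encodable.encode s + 1 ∈ φ (seg a τ.length) → ¬ s <+: τ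

theorem ms_tree (φ : List ℕ → List ℕ) (τ : List ℕ) : MeasurableSet {a | tree φ a τ} :=
  ms_segQ τ.length fun w => ∀ s : List ℕ, Encodable.encode s + 1 ∈ φ w → ¬ s <+: τ

theorem tree_prefix {φ : List ℕ → List ℕ} (hφ : ∀ s t, s <+: t → φ s <+: φ t) (a : Baire)
    (s t : List ℕ) (h : s <+: t) (ht : tree φ a t) : tree φ a s := by
  intro w hw hws
  exact ht w ((hφ _ _ (seg_prefix h.length_le)).subset hw) (hws.trans h)

theorem computes_prefix {φ : List ℕ → List ℕ} (hφ : ∀ s t, s <+: t → φ s <+: φ t)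
    {x y : Baire} (h : Computes φ x y) (m : ℕ) : φ (seg x m) <+: seg y (φ (seg x m)).length := by
  obtain ⟨m', hm'⟩ := h (φ (seg x m)).length
  have h1 : φ (seg x m) <+: φ (seg x (max m m')) := hφ _ _ (seg_prefix (le_max_left _ _))
  have h2 : seg y (φ (seg x m)).length <+: φ (seg x (max m m')) :=
    hm'.trans (hφ _ _ (seg_prefix (le_max_right _ _)))
  exact List.prefix_of_prefix_length_le h1 h2 (by simp)

theorem body_tree {φ : List ℕ → List ℕ} (hφ : ∀ s t, s <+: t → φ s <+: φ t) {a p' : Baire}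
    (h : Computes φ a p') : body (tree φ a) = closedOf p' := by
  ext x
  constructor
  · intro hx n s hn hs
    obtain ⟨m, hm⟩ := h (n + 1)
    have h1 : Encodable.encode s + 1 ∈ φ (seg a m) := by
      refine hm.subset ?_
      rw [← hn]
      exact List.mem_map.2 ⟨n, List.mem_range.2 (Nat.lt_succ_self n), rfl⟩
    have h2 := hx (max m s.length) s
    rw [length_seg] at h2
    refine h2 ((hφ _ _ (seg_prefix (le_max_left _ _))).subset h1) ?_
    exact prefix_of_mem hs (le_max_right _ _)
  · intro hx n s hs hsn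
    rw [length_seg] at hs
    have h1 := (computes_prefix hφ h n).subset hs
    obtain ⟨i, -, hi⟩ := List.mem_map.1 h1
    refine hx i s hi ?_
    exact (prefix_seg_iff (by simpa using hsn.length_le)).1 hsn

/-- Extension of a word by zeros. -/
def ext (s : List ℕ) : Baire := fun n => s.getD n 0

theorem ext_seg {x : Baire} {m i : ℕ} (h : i < m) : ext (seg x m) i = x i := seg_getD h

theorem pair_congr {p q p' q' : Baire} {m : ℕ} (hp : ∀ i < m, p i = p' i)
    (hq : ∀ i < m, q i = q' i) : ∀ i < m, pair p q i = pair p' q' i := by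
  intro i hi
  unfold pair
  have h2 : i / 2 < m := (Nat.div_le_self i 2).trans_lt hi
  split_ifs
  · exact hp _ h2
  · exact hq _ h2

theorem general {R : ℕ → Baire → Baire → Baire → Baire} {ψ φ : List ℕ → List ℕ}
    (hR : ∀ c (a p l a' p' l' : Baire) m, (∀ i < m, a i = a' i) → (∀ i < m, p i = p' i) →
      (∀ i < m, l i = l' i) → ∀ i < m, R c a p l i = R c a' p' l' i)
    (hφ : ∀ s t, s <+: t → φ s <+: φ t) (hψ : ∀ s t, s <+: t → ψ s <+: ψ t)
    (h : ∀ a ∈ choiceBaire.inst, ∃ p', Computes φ a p' ∧ ∀ P, IsKernel (closedOf p') P →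
      ∀ p, closedOf p = P → ∀ l, IsList l (closedOf p' \ P) →
      ∃ r, Computes ψ (R (code (closedOf p' \ P)) a p l) r ∧ r ∈ closedOf a) : False := by
  have hex : ∀ a, ∃ P, IsKernel (body (tree φ a)) P := fun a => exists_kernel (isClosed_body _)
  choose K hK using hex
  let Ev : ℕ → List ℕ → List ℕ → List ℕ → List ℕ := fun c s u v =>
    ψ (seg (R c (ext s) (ext u) (ext v)) s.length)
  have hEv : ∀ c (a p l : Baire) m, Ev c (seg a m) (seg p m) (seg l m) =
      ψ (seg (R c a p l) m) := by
    intro c a p l m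
    show ψ (seg (R c (ext (seg a m)) (ext (seg p m)) (ext (seg l m))) (seg a m).length) = _
    rw [length_seg]
    congr 1
    exact seg_congr (hR c _ _ _ _ _ _ m (fun i hi => ext_seg hi) (fun i hi => ext_seg hi)
      (fun i hi => ext_seg hi))
  refine core (T := tree φ) (K := K) (Ev := Ev) (ms_tree φ) (fun a => tree_prefix hφ a) hK ?_ ?_
  · intro c a p l m n hmn
    rw [hEv, hEv]
    exact hψ _ _ (seg_prefix hmn)
  · intro a ha p hp l hl
    obtain ⟨p', h1, h2⟩ := h a ha
    have hb := body_tree hφ h1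
    have hKa := hK a
    rw [hb] at hKa hl ⊢
    obtain ⟨r, hr1, hr2⟩ := h2 (K a) hKa p hp l hl
    refine ⟨r, hr2, fun n => ?_⟩
    obtain ⟨m, hm⟩ := hr1 n
    exact ⟨m, by rw [hEv]; exact hm⟩

theorem not_cb : ¬ ContinuousLE choiceBaire cbProblem := by
  rintro ⟨φ, ψ, hφ, hψ, h⟩
  refine general (R := fun c a p l => pair a (pair p (pair l fun _ => c))) ?_ hφ hψ ?_
  · intro c a p l a' p' l' m ha hp hl
    exact pair_congr ha (pair_congr hp (pair_congr hl fun _ _ => rfl))
  · intro a ha
    obtain ⟨p', h1, -, h2⟩ := h a ha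
    refine ⟨p', h1, fun P hP p hp l hl => ?_⟩
    refine h2 _ ⟨p, ?_, _, ⟨l, ⟨P, hP, hl⟩, _, ⟨P, hP, rfl⟩, rfl⟩, rfl⟩
    show IsKernel (closedOf p') (closedOf p)
    rw [hp]
    exact hP

theorem not_scList : ¬ ContinuousLE choiceBaire scList := by
  rintro ⟨φ, ψ, hφ, hψ, h⟩
  refine general (R := fun c a _ l => pair a (pair l fun _ => c)) ?_ hφ hψ ?_
  · intro c a p l a' p' l' m ha _ hl
    exact pair_congr ha (pair_congr hl fun _ _ => rfl)
  · intro a ha
    obtain ⟨p', h1, -, h2⟩ := h a ha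
    refine ⟨p', h1, fun P hP p _ l hl => ?_⟩
    exact h2 _ ⟨l, ⟨P, hP, hl⟩, _, ⟨P, hP, rfl⟩, rfl⟩

theorem toContinuous {f g : Problem} (h : WeihrauchLE f g) : ContinuousLE f g := by
  obtain ⟨φ, ψ, -, -, h⟩ := h
  exact ⟨φ, ψ, h⟩

/-- Closed choice on Baire space is neither Weihrauch reducible to the Cantor-Bendixson problem
nor to the problem of listing the scattered part with its cardinality code; both fail even for
continuous reducibility. -/
theorem result : (¬ WeihrauchLE choiceBaire cbProblem ∧ ¬ WeihrauchLE choiceBaire scList) ∧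
    ¬ ContinuousLE choiceBaire cbProblem ∧ ¬ ContinuousLE choiceBaire scList :=
  ⟨⟨fun h => not_cb (toContinuous h), fun h => not_scList (toContinuous h)⟩, not_cb, not_scList⟩

end Pool.Agent.Results.MP_88baa4_lc.ChoiceNotCB
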